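import Mathlib

set_option autoImplicit false

namespace Pool.Agent.Results.MP_73e407_co.Triangle

variable {W : Type} [DecidableEq W]

/-- No vertex of `S` lies on a shortest path between two other vertices of `S`. -/
def GP (H : SimpleGraph W) (S : Finset W) : Prop :=
  ∀ u ∈ S, ∀ v ∈ S, ∀ w ∈ S, u ≠ v → v ≠ w → u ≠ w → H.dist u v + H.dist v w ≠ H.dist u w

/-- One robot moves to an adjacent free vertex, and the new set is in general position. -/
def Move (H : SimpleGraph W) (T T' : Finset W) : Prop :=
  ∃ x ∈ T, ∃ y ∉ T, H.Adj x y ∧ T' = insert y (T.erase x) ∧ GP H T'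

/-- A mobile general position set. -/
def Mobile (H : SimpleGraph W) (S : Finset W) : Prop :=
  GP H S ∧ ∃ L : List (Finset W), (S :: L).IsChain (Move H) ∧ ∀ v, ∃ T ∈ S :: L, v ∈ T

/-- The mobile general position number. -/
noncomputable def mob (H : SimpleGraph W) : ℕ := sSup {k | ∃ S, Mobile H S ∧ S.card = k}

/-- The join of `G` with one new vertex `none`. -/
def join {V : Type} (G : SimpleGraph V) : SimpleGraph (Option V) where
  Adj x y := x ≠ y ∧ ∀ a b, x = some a → y = some b → G.Adj a b
  symm := ⟨fun _ _ h => ⟨h.1.symm, fun a b ha hb => (h.2 b a hb ha).symm⟩⟩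
  loopless := ⟨fun _ h => h.1 rfl⟩

variable {V : Type} [DecidableEq V] (G : SimpleGraph V)

omit [DecidableEq V] in
theorem adj_ss (a b : V) : (join G).Adj (some a) (some b) ↔ G.Adj a b := by
  constructor
  · exact fun h => h.2 a b rfl rfl
  · intro h
    refine ⟨fun e => h.ne (Option.some.inj e), ?_⟩
    rintro _ _ ⟨⟩ ⟨⟩
    exact h

omit [DecidableEq V] in
theorem adj_ns (a : V) : (join G).Adj none (some a) := ⟨by simp, by simp⟩

omit [DecidableEq V] in
theorem adj_sn (a : V) : (join G).Adj (some a) none := (adj_ns G a).symm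

omit [DecidableEq V] in
theorem walk2 (u w : Option V) : ∃ p : (join G).Walk u w, p.length ≤ 2 := by
  rcases u with _ | a <;> rcases w with _ | b
  · exact ⟨.nil, by simp⟩
  · exact ⟨.cons (adj_ns G b) .nil, by simp⟩
  · exact ⟨.cons (adj_sn G a) .nil, by simp⟩
  · exact ⟨.cons (adj_sn G a) (.cons (adj_ns G b) .nil), by simp⟩

omit [DecidableEq V] in
theorem gp_of (S : Finset (Option V)) (h : ∀ u ∈ S, ∀ v ∈ S, ∀ w ∈ S, u ≠ w → (join G).Adj u v →
    (join G).Adj v w → (join G).Adj u w) : GP (join G) S := by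
  intro u hu v hv w hw h1 h2 h3 e
  have p1 := (walk2 G u v).choose.reachable.pos_dist_of_ne h1
  have p2 := (walk2 G v w).choose.reachable.pos_dist_of_ne h2
  have p3 := (SimpleGraph.dist_le (walk2 G u w).choose).trans (walk2 G u w).choose_spec
  have := h u hu v hv w hw h3 (SimpleGraph.dist_eq_one_iff_adj.1 (by omega))
    (SimpleGraph.dist_eq_one_iff_adj.1 (by omega))
  have := SimpleGraph.dist_eq_one_iff_adj.2 this
  omega

theorem gp3 (x p q : Option V) (hpq : (join G).Adj p q)
    (hx : (join G).Adj x p ↔ (join G).Adj x q) : GP (join G) {x, p, q} := by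
  apply gp_of
  have h1 := (join G).adj_comm x p
  have h2 := (join G).adj_comm x q
  have h3 := hpq.symm
  simp only [Finset.mem_insert, Finset.mem_singleton]
  rintro u (rfl | rfl | rfl) v (rfl | rfl | rfl) w (rfl | rfl | rfl) <;> tauto

theorem mv (H : SimpleGraph W) (x y p q : W) (h1 : x ≠ p) (h2 : x ≠ q) (h3 : y ≠ p) (h4 : y ≠ q)
    (h : H.Adj x y) (hg : GP H {y, p, q}) : Move H {x, p, q} {y, p, q} := by
  refine ⟨x, by simp, y, by simp [h3, h4, h.ne.symm], h, ?_, hg⟩
  rw [Finset.erase_insert (by simp [h1, h2])]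

theorem peek (a b v : V) (hab : G.Adj a b) (ha : v ≠ a) (hb : v ≠ b) (h : G.Adj v a ↔ G.Adj v b) :
    Move (join G) {none, some a, some b} {some v, some a, some b} ∧
    Move (join G) {some v, some a, some b} {none, some a, some b} :=
  ⟨mv _ _ _ _ _ (by simp) (by simp) (by simpa) (by simpa) (adj_ns G v)
      (gp3 G _ _ _ ((adj_ss G a b).2 hab) (by simpa [adj_ss] using h)),
    mv _ _ _ _ _ (by simpa) (by simpa) (by simp) (by simp) (adj_sn G v)
      (gp3 G _ _ _ ((adj_ss G a b).2 hab) (by simp [adj_ns]))⟩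

theorem turn (a b c : V) (hab : G.Adj a b) (hac : G.Adj a c) (hbc : G.Adj b c) :
    Move (join G) {none, some a, some b} {none, some c, some b} := by
  rw [Finset.insert_comm none (some a), Finset.insert_comm none (some c)]
  exact mv _ _ _ _ _ (by simp) (by simpa using hab.ne) (by simp) (by simpa using hbc.ne.symm)
    ((adj_ss G a c).2 hac) (gp3 G _ _ _ (adj_ns G b) (by simp [adj_sn, adj_ss, hbc.symm]))

theorem result (V : Type) [Fintype V] [DecidableEq V] (G : SimpleGraph V) (hw : 3 ≤ G.cliqueNum) :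
    3 ≤ mob (join G) := by
  obtain ⟨K, hK⟩ := G.exists_isNClique_cliqueNum
  obtain ⟨K', hs, hc⟩ := Finset.exists_subset_card_eq (s := K) (n := 3) (by rw [hK.2]; exact hw)
  obtain ⟨a, b, c, hab, hac, hbc, rfl⟩ :=
    SimpleGraph.is3Clique_iff.1 (⟨hK.1.subset hs, hc⟩ : G.IsNClique 3 K')
  set S : Finset (Option V) := {none, some a, some b} with hS
  have t1 := turn G a b c hab hac hbc
  have t2 := turn G c b a hbc.symm hac.symm hab.symm
  have t3 := turn G b a c hab.symm hbc hac
  have t4 := turn G c a b hac.symm hbc.symm hab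
  rw [Finset.pair_comm (some b) (some a)] at t3 t4
  have tour : ∀ v, ∃ L : List (Finset (Option V)), (S :: L ++ [S]).IsChain (Move (join G)) ∧
      ∃ T ∈ S :: L, v ∈ T := by
    intro v
    by_cases hv : v ∈ S ∨ v = some c
    · refine ⟨[{none, some c, some b}], by simp [hS, t1, t2], ?_⟩
      rcases hv with hv | rfl
      · exact ⟨S, by simp, hv⟩
      · exact ⟨{none, some c, some b}, by simp, by simp⟩
    · rcases v with _ | v
      · simp [hS] at hv
      simp only [hS, Finset.mem_insert, Finset.mem_singleton, Option.some.injEq, not_or] at hv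
      obtain ⟨⟨-, ha, hb⟩, hc⟩ := hv
      by_cases e1 : G.Adj v a ↔ G.Adj v b
      · have := peek G a b v hab ha hb e1
        exact ⟨[{some v, some a, some b}], by simp [hS, this], {some v, some a, some b},
          by simp, by simp⟩
      by_cases e2 : G.Adj v c ↔ G.Adj v b
      · have := peek G c b v hbc.symm hc hb e2
        exact ⟨[{none, some c, some b}, {some v, some c, some b}, {none, some c, some b}],
          by simp [hS, this, t1, t2], {some v, some c, some b}, by simp, by simp⟩
      · have := peek G c a v hac.symm hc ha (by tauto)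
        exact ⟨[{none, some c, some a}, {some v, some c, some a}, {none, some c, some a}],
          by simp [hS, this, t3, t4], {some v, some c, some a}, by simp, by simp⟩
  have all : ∀ l : List (Option V), ∃ L : List (Finset (Option V)),
      (S :: L).IsChain (Move (join G)) ∧ ∀ v ∈ l, ∃ T ∈ S :: L, v ∈ T := by
    intro l
    induction l with
    | nil => exact ⟨[], by simp, by simp⟩
    | cons v l ih =>
      obtain ⟨L, h1, h2⟩ := ih
      obtain ⟨M, h3, T, h4, h5⟩ := tour v
      refine ⟨M ++ S :: L, List.isChain_split.2 ⟨h3, h1⟩, fun w hw => ?_⟩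
      rcases List.mem_cons.1 hw with rfl | hw
      · exact ⟨T, by grind, h5⟩
      · obtain ⟨T', h6, h7⟩ := h2 w hw
        exact ⟨T', by grind, h7⟩
  obtain ⟨L, h1, h2⟩ := all Finset.univ.toList
  refine le_csSup ⟨Fintype.card (Option V), ?_⟩ ⟨S, ⟨?_, L, h1, fun v => h2 v (by simp)⟩, ?_⟩
  · rintro k ⟨T, -, rfl⟩
    exact T.card_le_univ
  · exact gp3 G _ _ _ ((adj_ss G a b).2 hab) (by simp [adj_ns])
  · exact Finset.card_eq_three.2 ⟨_, _, _, by simp, by simp, by simpa using hab.ne, rfl⟩

end Pool.Agent.Results.MP_73e407_co.Triangle
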